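import Pool.Agent.Helper75.SP.Base

/-! The relative Frobenius endomorphisms on the cohomology of the generic points of varieties:
definitions. -/

set_option autoImplicit false

namespace Pool.Agent.Helper75.SP

open IntermediateField TensorProduct

/-- `φ` is a relative `q`-Frobenius: `K` is generated over `Ω` by elements `a` with
`φ a = a ^ q`. -/
def IsFrob {Ω K : Type} [Field Ω] [Field K] [Algebra Ω K] (q : ℕ) (φ : K →ₐ[Ω] K) : Prop :=
  adjoin Ω {a : K | φ a = a ^ q} = ⊤

namespace Cohomology

variable {Ω L : Type} [Field Ω] [Field L] (p : ℕ) (T : Cohomology Ω L)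

/-- Frobenius is semisimple on the first cohomology (Weil). -/
def Weil : Prop :=
  ∀ (K : Type) [Field K] [Algebra Ω K] (e : ℕ) (φ : K →ₐ[Ω] K), IsFG Ω K → IsFrob (p ^ e) φ →
    Module.End.IsSemisimple (T.map 1 φ)

/-- The endomorphism of `H 2 K ⊗ H 1 C` defined by endomorphisms of `K` and `C`. -/
def tensorMap {K C : Type} [Field K] [Algebra Ω K] [Field C] [Algebra Ω C] (φ : K →ₐ[Ω] K)
    (ψ : C →ₐ[Ω] C) : Module.End L (T.Tensor K C) :=
  TensorProduct.map (T.map 2 φ) (T.map 1 ψ)

/-- The classes of `H 2 (surface) ⊗ H 1 (curve)` which vanish at the generic point of the product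
are supported on a divisor, whose components are defined over the field with `p ^ (e * m)`
elements. Let `D` be the product of its components: they are contained in the image of `H 1 D`
under the Gysin map `g`. -/
def Gysin : Prop :=
  ∀ {K C N : Type} [Field K] [Algebra Ω K] [Field C] [Algebra Ω C] [Field N] [Algebra Ω N]
    (a : K →ₐ[Ω] N) (b : C →ₐ[Ω] N) (e : ℕ) (φ : K →ₐ[Ω] K) (ψ : C →ₐ[Ω] C), IsProduct a b →
    IsFrob (p ^ e) φ → IsFrob (p ^ e) ψ →
    ∃ (m : ℕ) (D : Type) (_ : Field D) (_ : Algebra Ω D) (δ : D →ₐ[Ω] D)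
      (g : T.H 1 D →ₗ[L] T.Tensor K C),
      0 < m ∧ IsFG Ω D ∧ IsFrob (p ^ (e * m)) δ ∧
      (∀ s, (T.tensorMap φ ψ ^ m) (g s) = (p : L) ^ (e * m) • g (T.map 1 δ s)) ∧
      ∀ t, T.prod a b t = 0 → t ∈ LinearMap.range g

end Cohomology

/-- The cohomology of the generic points of varieties over an algebraic closure `Ω` of a finite
field of characteristic `p`, with the properties of the relative Frobenius endomorphisms. -/
structure Theory (p : ℕ) (Ω L : Type) [Field Ω] [Field L] extends BaseTheory Ω L where
  weil : toCohomology.Weil p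
  gysin : toCohomology.Gysin p

/-- `V` is the second cohomology of a smooth projective surface with function field `K` over the
field with `q` elements, `Fr` is Frobenius and `r` the restriction to the generic point: the kernel
of `r` is spanned by the classes of curves and has a complement, its orthogonal. -/
structure IsH2 {Ω L : Type} [Field Ω] [Field L] (T : Cohomology Ω L) {K : Type} [Field K]
    [Algebra Ω K] (q : ℕ) (φ : K →ₐ[Ω] K) {V : Type} [AddCommGroup V] [Module L V]
    (Fr : Module.End L V) (r : V →ₗ[L] T.H 2 K) : Prop where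
  comm : ∀ v, r (Fr v) = T.map 2 φ (r v)
  classes : ∃ m : ℕ, 0 < m ∧ ∀ v, r v = 0 → (Fr ^ m) v = (q : L) ^ m • v
  compl : ∃ W : Submodule L V, (∀ v ∈ W, Fr v ∈ W) ∧ IsCompl (LinearMap.ker r) W

end Pool.Agent.Helper75.SP
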