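import Pool.Agent.Helper75.SP.Conv
import Pool.Agent.Helper75.SP.Frob

/-! The two forms of the definition of `Theory`. -/

set_option autoImplicit false

namespace Pool.Agent.Helper75.SP

open IntermediateField TensorProduct

/-- the same theory in the form of the folder QC -/
@[reducible]
def Theory.toTheory {p : ℕ} {Ω L : Type} [Field Ω] [Field L] (T : Theory p Ω L) :
    Pool.Agent.Helper75.QC.Theory p Ω L where
  toBaseTheory := T.toBaseTheory.toBase
  weil := fun K _ _ e φ h hφ => T.weil K e φ h hφ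
  support := fun {K C N} _ _ _ _ _ _ a b x y v e φ ψ h => by
    obtain ⟨hK, hC, hx, hv, ht, hφ, hψ⟩ := h
    obtain ⟨m, D, i1, i2, δ, g, hm, hD, hδ, hg, hg'⟩ :=
      T.gysin a b e φ ψ ⟨hK, hC, ⟨x, y, hx⟩, ⟨v, hv, ht⟩⟩ hφ hψ
    refine ⟨m, 1, fun _ => D, fun _ => i1, fun _ => i2, fun _ => δ, fun _ => g, hm,
      fun _ => ⟨hD, hδ, fun s => ?_⟩, fun t ht => ?_⟩
    · have h1 := hg s
      rw [Module.End.pow_apply] at h1
      exact h1
    · refine Submodule.mem_iSup_of_mem 0 (hg' t ?_)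
      have key : TensorProduct.lift (T.cup N) ∘ₗ TensorProduct.map (T.map 2 a) (T.map 1 b) =
          TensorProduct.lift ((T.cup N).compl₁₂ (T.map 2 a) (T.map 1 b)) :=
        TensorProduct.ext' fun u v => by simp [LinearMap.compl₁₂_apply]
      exact (LinearMap.congr_fun key t).symm.trans ht

theorem IsH2.toQC {p : ℕ} {Ω L : Type} [Field Ω] [Field L] {T : Theory p Ω L} {K : Type} [Field K]
    [Algebra Ω K] {q : ℕ} {φ : K →ₐ[Ω] K} {V : Type} [AddCommGroup V] [Module L V]
    {Fr : Module.End L V} {r : V →ₗ[L] T.H 2 K} (h : IsH2 T.toCohomology q φ Fr r) :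
    Pool.Agent.Helper75.QC.IsH2 T.toTheory q φ Fr r :=
  ⟨h.comm, h.classes, h.compl⟩

end Pool.Agent.Helper75.SP
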