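import Mathlib

/-! The cohomology of the generic points of varieties: definitions.

`Omega` is an algebraically closed field. The axioms are stated one by one, so that each of them
is short; `BaseTheory` collects them. -/

set_option autoImplicit false

namespace Pool.Agent.Helper75.SP

open IntermediateField TensorProduct

/-- The elements of `E` which are algebraic over the field generated over `Ω` by `S`. -/
def Acl (Ω : Type) {E : Type} [Field Ω] [Field E] [Algebra Ω E] (S : Set E) : Set E :=
  {a | IsAlgebraic (adjoin Ω S) a}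

/-- The extension `K` of `Ω` is contained in a field `M(θ)`, where `M` is algebraic over a field
generated over `Ω` by fewer than `i` elements. -/
def Uniruled (Ω K : Type) [Field Ω] [Field K] [Algebra Ω K] (i : ℕ) : Prop :=
  ∃ (E : Type) (_ : Field E) (_ : Algebra Ω E) (g : K →ₐ[Ω] E) (S : Finset E) (θ : E),
    S.card < i ∧ ∀ k, g k ∈ adjoin Ω (Acl Ω (S : Set E) ∪ {θ})

/-- `K` is generated by finitely many elements over `Ω`. -/
def IsFG (Ω K : Type) [Field Ω] [Field K] [Algebra Ω K] : Prop :=
  (⊤ : IntermediateField Ω K).FG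

/-- `K'` is algebraic over the image of `K`. -/
def IsDominant {Ω K K' : Type} [Field Ω] [Field K] [Algebra Ω K] [Field K'] [Algebra Ω K']
    (g : K →ₐ[Ω] K') : Prop :=
  ∀ a : K', IsAlgebraic g.fieldRange a

/-- Vector spaces `H i K` over `L` which are functors of the extension `K` of `Ω`, with a cup
product. `H i K` is the part of weight `i` of the cohomology in degree `i` of the generic point of
a variety over `Ω` with function field `K`, that is `H^i(X)` modulo the classes supported on
divisors, `X` smooth projective. -/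
structure Cohomology (Ω L : Type) [Field Ω] [Field L] where
  H : ℕ → (K : Type) → [Field K] → [Algebra Ω K] → Type
  [grp : ∀ (i : ℕ) (K : Type) [Field K] [Algebra Ω K], AddCommGroup (H i K)]
  [mdl : ∀ (i : ℕ) (K : Type) [Field K] [Algebra Ω K], Module L (H i K)]
  map : ∀ (i : ℕ) {K K' : Type} [Field K] [Algebra Ω K] [Field K'] [Algebra Ω K'],
    (K →ₐ[Ω] K') → (H i K →ₗ[L] H i K')
  map_id : ∀ (i : ℕ) (K : Type) [Field K] [Algebra Ω K], map i (AlgHom.id Ω K) = LinearMap.id
  map_comp : ∀ (i : ℕ) {K K' K'' : Type} [Field K] [Algebra Ω K] [Field K'] [Algebra Ω K']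
    [Field K''] [Algebra Ω K''] (g : K →ₐ[Ω] K') (h : K' →ₐ[Ω] K''),
    map i (h.comp g) = map i h ∘ₗ map i g
  cup : ∀ (K : Type) [Field K] [Algebra Ω K], H 2 K →ₗ[L] H 1 K →ₗ[L] H 3 K

attribute [instance] Cohomology.grp Cohomology.mdl

namespace Cohomology

variable {Ω L : Type} [Field Ω] [Field L] (T : Cohomology Ω L)

/-- finiteness -/
def Finite : Prop :=
  ∀ (i : ℕ) (K : Type) [Field K] [Algebra Ω K], IsFG Ω K → FiniteDimensional L (T.H i K)

/-- transfer -/
def Transfer : Prop :=
  ∀ (i : ℕ) {K K' : Type} [Field K] [Algebra Ω K] [Field K'] [Algebra Ω K'] (g : K →ₐ[Ω] K'),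
    IsDominant g → Function.Injective (T.map i g)

/-- Galois descent -/
def Descent : Prop :=
  ∀ (i : ℕ) (K : Type) [Field K] [Algebra Ω K] (N : IntermediateField Ω K)
    [FiniteDimensional N K] [IsGalois N K] (z : T.H i K),
    (∀ τ : K →ₐ[N] K, T.map i (τ.restrictScalars Ω) z = z) → z ∈ LinearMap.range (T.map i N.val)

/-- vanishing in degrees above the dimension, and in the degree of the dimension if the variety
is uniruled -/
def Vanishing : Prop :=
  ∀ (i : ℕ) (K : Type) [Field K] [Algebra Ω K], Uniruled Ω K i → ∀ z : T.H i K, z = 0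

/-- the cup product is functorial -/
def CupFunctorial : Prop :=
  ∀ {K K' : Type} [Field K] [Algebra Ω K] [Field K'] [Algebra Ω K'] (g : K →ₐ[Ω] K')
    (a : T.H 2 K) (b : T.H 1 K), T.map 3 g (T.cup K a b) = T.cup K' (T.map 2 g a) (T.map 1 g b)

/-- the cohomology of the curve `u ^ n = v ^ α (1 - v) ^ β` as a representation of its group of
automorphisms `u ↦ ζ u` -/
def Curves : Prop :=
  ∀ (C : Type) [Field C] [Algebra Ω C] (n α β : ℕ) (ζ : Ω) (v u : C) (σ : C →ₐ[Ω] C),
    (n : Ω) ≠ 0 → IsPrimitiveRoot ζ n → Transcendental Ω v → u ^ n = v ^ α * (1 - v) ^ β →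
    adjoin Ω {v, u} = ⊤ → σ v = v → σ u = algebraMap Ω C ζ * u →
    ∀ ξ : L, ξ ^ n = 1 → ξ ^ α ≠ 1 → ξ ^ β ≠ 1 → ξ ^ (α + β) ≠ 1 →
      ∃ z : T.H 1 C, z ≠ 0 ∧ T.map 1 σ z = ξ • z

/-- The space `H 2 K ⊗ H 1 C`. -/
def Tensor (K C : Type) [Field K] [Algebra Ω K] [Field C] [Algebra Ω C] : Type :=
  T.H 2 K ⊗[L] T.H 1 C

instance (K C : Type) [Field K] [Algebra Ω K] [Field C] [Algebra Ω C] :
    AddCommGroup (T.Tensor K C) :=
  TensorProduct.addCommGroup

instance (K C : Type) [Field K] [Algebra Ω K] [Field C] [Algebra Ω C] :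
    Module L (T.Tensor K C) :=
  TensorProduct.leftModule

/-- The map `H 2 K ⊗ H 1 C → H 3 N`, `s ⊗ t ↦ a s ∪ b t`, for extensions `a : K → N` and
`b : C → N`. -/
def prod {K C N : Type} [Field K] [Algebra Ω K] [Field C] [Algebra Ω C] [Field N] [Algebra Ω N]
    (a : K →ₐ[Ω] N) (b : C →ₐ[Ω] N) : T.Tensor K C →ₗ[L] T.H 3 N :=
  TensorProduct.lift ((T.cup N).compl₁₂ (T.map 2 a) (T.map 1 b))

end Cohomology

/-- The formal properties of the cohomology of the generic points of varieties over `Ω`. -/
structure BaseTheory (Ω L : Type) [Field Ω] [Field L] extends Cohomology Ω L where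
  fin : toCohomology.Finite
  inj : toCohomology.Transfer
  descent : toCohomology.Descent
  uniruled : toCohomology.Vanishing
  map_cup : toCohomology.CupFunctorial
  curve : toCohomology.Curves

/-- `K` and `C` are the function fields of a surface and of a curve over `Ω`, and `N` contains the
function field of their product. -/
structure IsProduct {Ω K C N : Type} [Field Ω] [Field K] [Algebra Ω K] [Field C] [Algebra Ω C]
    [Field N] [Algebra Ω N] (a : K →ₐ[Ω] N) (b : C →ₐ[Ω] N) : Prop where
  fg : IsFG Ω K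
  fg' : IsFG Ω C
  surface : ∃ x y : K, ∀ k : K, k ∈ Acl Ω {x, y}
  curve : ∃ v : C, (∀ k : C, k ∈ Acl Ω {v}) ∧ Transcendental a.fieldRange (b v)

end Pool.Agent.Helper75.SP
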