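import Pool.Agent.Helper75.SP.Base
import Pool.Agent.Helper75.QC.Defs

/-! The two forms of the definition of `BaseTheory` agree. -/

set_option autoImplicit false

namespace Pool.Agent.Helper75.SP

open IntermediateField TensorProduct

/-- the same theory in the form of the folder QC -/
@[reducible]
def BaseTheory.toBase {Ω L : Type} [Field Ω] [Field L] (T : BaseTheory Ω L) :
    Pool.Agent.Helper75.QC.BaseTheory Ω L where
  H := T.H
  grp := T.grp
  mdl := T.mdl
  map := T.map
  map_id := T.map_id
  map_comp := T.map_comp
  fin := fun i K _ _ h => T.fin i K h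
  inj := fun i _ _ _ _ _ _ g hg => T.inj i g hg
  descent := fun i K _ _ N _ _ z hz => T.descent i K N z hz
  uniruled := fun i K _ _ h => T.uniruled i K h
  cup := T.cup
  pull_mul := fun g a b => T.map_cup g a b
  curve' := fun C _ _ n α β ζ v u σ h1 h2 h3 h4 h5 h6 h7 => T.curve C n α β ζ v u σ h1 h2 h3 h4 h5 h6 h7

end Pool.Agent.Helper75.SP
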